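import Pool.Agent.H781Z.FSig.Main

open Pool.Agent.H781Z.FSig

namespace Pool.Agent.Results.MP_ccce09_ag.AToricCounterexample

/-- In every prime characteristic there is an F-finite local normal domain `R` of dimension 3,
essentially of finite type over the prime field, with `s(R) = 5 / 12` and `s(R, Δ) ≤ 1 / 3` for
every effective `ℚ`-divisor `Δ` such that `K_X + Δ` is `ℚ`-Cartier of index prime to `p`. -/
theorem result (p : ℕ) [Fact p.Prime] :
    ∃ (R K : Type) (_ : CommRing R) (_ : IsDomain R) (_ : IsNoetherianRing R) (_ : IsLocalRing R)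
      (_ : IsIntegrallyClosed R) (_ : CharP R p) (_ : Algebra (ZMod p) R)
      (_ : Field K) (_ : Algebra R K) (_ : IsFractionRing R K) (_ : Algebra (ZMod p) K)
      (_ : IsScalarTower (ZMod p) R K),
      Algebra.EssFiniteType (ZMod p) R ∧ Module.Finite R (Frob p 1 R) ∧ ringKrullDim R = 3 ∧
      fSignature R p 3 = 5 / 12 ∧
      (∃ KX : PrimeDiv R →₀ ℤ, IsCanonicalDivisor K (ZMod p) 3 KX) ∧
      ∀ KX : PrimeDiv R →₀ ℤ, IsCanonicalDivisor K (ZMod p) 3 KX →
        ∀ Δ : EffQDiv R, IsQCartierPrimeTo K p KX Δ → fSignaturePair K p 3 Δ ≤ 1 / 3 :=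
  ⟨RR p, KK p, inferInstance, inferInstance, inferInstance, inferInstance, inferInstance,
    inferInstance, inferInstance, inferInstance, inferInstance, inferInstance, inferInstance,
    IsScalarTower.of_algebraMap_eq (fun _ => rfl), inferInstance, finite_frob p 1, dim_RR p,
    fSignature_eq p, exists_canonical p, fun _ hD Δ H => fSignaturePair_le p hD Δ H⟩

end Pool.Agent.Results.MP_ccce09_ag.AToricCounterexample
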